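import Mathlib
import Pool.Agent.Helper75.IP.Defs
import Pool.Agent.Helper35.IP.ZeroExt
import Pool.Agent.Helper35.IP.FdPeriod
import Pool.Agent.Helper40.LPA.Trace
import Pool.Agent.Helper25.CG.Ext
import Pool.Agent.Helper16.CG.Comp
import Pool.Agent.Helper16.SAG.PartB
import Pool.Agent.Helper35.AG.PartE

/-!
# Independent powers: traces
-/

set_option autoImplicit false

open MeasureTheory Filter Topology Finset Helper17.FU Helper17.FUGroup Helper35.AG Helper75.IP
open Helper91.TTT (GG IsTr)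
open scoped ENNReal ComplexConjugate ComplexOrder

namespace Helper35.IP

/-- the Fourier coefficients of a finite measure are positive definite -/
theorem pdz_ft (σ : Measure Tor) [IsFiniteMeasure σ] :
    Helper17.LevelSets.PDZ (fun n : ℤ => ∫ x, (fourier n x : ℂ) ∂σ) := by
  intro s c
  have hint : ∀ f : Tor → ℂ, Continuous f → Integrable f σ := fun f hf =>
    hf.integrable_of_hasCompactSupport (HasCompactSupport.of_compactSpace _)
  have e : ∑ i ∈ s, ∑ j ∈ s, star (c j) * c i * ∫ x, (fourier (i - j) x : ℂ) ∂σ =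
      ((∫ x, Complex.normSq (∑ i ∈ s, c i * (fourier i x : ℂ)) ∂σ : ℝ) : ℂ) := by
    have e1 : ∀ x : Tor, ((Complex.normSq (∑ i ∈ s, c i * (fourier i x : ℂ)) : ℝ) : ℂ) =
        ∑ i ∈ s, ∑ j ∈ s, star (c j) * c i * (fourier (i - j) x : ℂ) := by
      intro x
      rw [← Complex.mul_conj, map_sum, Finset.sum_mul_sum]
      refine Finset.sum_congr rfl fun i _ => Finset.sum_congr rfl fun j _ => ?_
      rw [map_mul, ← fourier_neg, sub_eq_add_neg, fourier_add, Complex.star_def]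
      ring
    rw [← integral_complex_ofReal]
    simp only [e1]
    rw [integral_finsetSum _ fun i _ => hint _ (by fun_prop)]
    refine Finset.sum_congr rfl fun i _ => ?_
    rw [integral_finsetSum _ fun j _ => hint _ (by fun_prop)]
    refine Finset.sum_congr rfl fun j _ => ?_
    rw [integral_const_mul]
  rw [e]
  exact_mod_cast integral_nonneg fun x => Complex.normSq_nonneg _

/-- the Fourier coefficients of an invariant probability measure -/
theorem ipd_ft {ν : Measure Tor} [IsProbabilityMeasure ν] (hν : Inv ν) :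
    Helper58.FX.IPD (fun n : ℤ => ∫ x, (fourier n x : ℂ) ∂ν) where
  pd := pdz_ft ν
  one := by simp
  two n := by
    have h := Helper25.CG.ft_inv hν n 1 0
    simp only [pow_one, pow_zero, mul_one] at h
    rw [mul_comm]
    exact h
  three n := by
    have h := Helper25.CG.ft_inv hν n 0 1
    simp only [pow_one, pow_zero, one_mul] at h
    rw [mul_comm]
    exact h

/-- a measure below a multiple of another one is a component of it -/
theorem split_measure {α ρ : Measure Tor} [IsProbabilityMeasure α] [IsProbabilityMeasure ρ]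
    (hα : Inv α) (hρ : Inv ρ) {c : ℝ≥0∞} (hc : c ≠ ⊤) (hle : ρ ≤ c • α) :
    ∃ (a : ℝ) (σ : Measure Tor), 0 < a ∧ a < 1 ∧ IsProbabilityMeasure σ ∧ Inv σ ∧
      α = ENNReal.ofReal a • ρ + ENNReal.ofReal (1 - a) • σ := by
  have hc0 : 0 ≤ c.toReal := ENNReal.toReal_nonneg
  set a : ℝ := 1 / (c.toReal + 2) with ha
  have ha0 : 0 < a := by positivity
  have ha1 : a < 1 := by
    rw [ha, div_lt_one (by positivity)]
    linarith
  have hle' : ENNReal.ofReal a • ρ ≤ α := by
    calc ENNReal.ofReal a • ρ ≤ ENNReal.ofReal a • (c • α) := by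
          gcongr
      _ = (ENNReal.ofReal a * c) • α := by rw [smul_smul]
      _ ≤ (1 : ℝ≥0∞) • α := by
          gcongr
          rw [← ENNReal.ofReal_toReal hc, ← ENNReal.ofReal_mul ha0.le, ← ENNReal.ofReal_one]
          refine ENNReal.ofReal_le_ofReal ?_
          rw [ha, one_div, inv_mul_le_iff₀ (by positivity)]
          linarith
      _ = α := one_smul _ _
  set σ0 : Measure Tor := α - ENNReal.ofReal a • ρ with hσ0
  have hfin : IsFiniteMeasure (ENNReal.ofReal a • ρ) := ⟨by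
    rw [Measure.smul_apply, measure_univ, smul_eq_mul, mul_one]
    exact ENNReal.ofReal_lt_top⟩
  have hadd : σ0 + ENNReal.ofReal a • ρ = α := Measure.sub_add_cancel_of_le hle'
  have hne : ENNReal.ofReal (1 - a) ≠ 0 := by
    rw [Ne, ENNReal.ofReal_eq_zero, not_le]
    linarith
  have hmass : σ0 Set.univ = ENNReal.ofReal (1 - a) := by
    have h1 := congrArg (fun m : Measure Tor => m Set.univ) hadd
    simp only [Measure.add_apply, Measure.smul_apply, measure_univ, smul_eq_mul, mul_one] at h1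
    rw [← ENNReal.ofReal_one] at h1
    have h2 : ENNReal.ofReal 1 = ENNReal.ofReal (1 - a) + ENNReal.ofReal a := by
      rw [← ENNReal.ofReal_add (by linarith) ha0.le]
      congr 1
      ring
    rw [h2] at h1
    exact (ENNReal.add_left_inj ENNReal.ofReal_ne_top).1 h1
  have hinv : ∀ {n : ℕ}, MeasurePreserving (fun x : Tor => n • x) α α →
      MeasurePreserving (fun x : Tor => n • x) ρ ρ →
      MeasurePreserving (fun x : Tor => n • x) ((ENNReal.ofReal (1 - a))⁻¹ • σ0)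
        ((ENNReal.ofReal (1 - a))⁻¹ • σ0) := by
    intro n h1 h2
    refine ⟨h1.measurable, ?_⟩
    rw [Measure.map_smul]
    congr 1
    ext s hs
    have e1 : α s = σ0 s + ENNReal.ofReal a * ρ s := by
      conv_lhs => rw [← hadd]
      rw [Measure.add_apply, Measure.smul_apply, smul_eq_mul]
    have e2 : α ((fun x : Tor => n • x) ⁻¹' s) = σ0 ((fun x : Tor => n • x) ⁻¹' s) +
        ENNReal.ofReal a * ρ ((fun x : Tor => n • x) ⁻¹' s) := by
      conv_lhs => rw [← hadd]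
      rw [Measure.add_apply, Measure.smul_apply, smul_eq_mul]
    rw [h1.measure_preimage hs.nullMeasurableSet, h2.measure_preimage hs.nullMeasurableSet, e1] at e2
    rw [Measure.map_apply h1.measurable hs]
    exact ((ENNReal.add_left_inj (ENNReal.mul_ne_top ENNReal.ofReal_ne_top
      (measure_ne_top ρ s))).1 e2).symm
  refine ⟨a, (ENNReal.ofReal (1 - a))⁻¹ • σ0, ha0, ha1, ⟨?_⟩,
    ⟨hinv hα.two hρ.two, hinv hα.three hρ.three⟩, ?_⟩
  · rw [Measure.smul_apply, hmass, smul_eq_mul, ENNReal.inv_mul_cancel hne ENNReal.ofReal_ne_top]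
  · rw [smul_smul, ENNReal.mul_inv_cancel hne ENNReal.ofReal_ne_top, one_smul, add_comm, hadd]

theorem conv_zero (α : Measure Tor) [IsProbabilityMeasure α] : conv α (Measure.dirac 0) = α := by
  unfold conv
  rw [Measure.prod_dirac, Measure.map_map (by fun_prop) (by fun_prop)]
  have : ((fun p : Tor × Tor => p.1 + p.2) ∘ fun x : Tor => (x, (0 : Tor))) = id := by
    funext x
    simp
  rw [this, Measure.map_id]

theorem cp_one (μ : Measure Tor) [IsProbabilityMeasure μ] : cp μ 1 = μ := conv_zero μ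

/-- convolution powers charge the multiples of the atoms -/
theorem cp_atom {μ : Measure Tor} [IsProbabilityMeasure μ] {w : Tor} (hw : 0 < μ {w}) (n : ℕ) :
    0 < cp μ n {n • w} := by
  induction n with
  | zero =>
    show 0 < Measure.dirac (0 : Tor) {(0 : ℕ) • w}
    rw [zero_smul, Measure.dirac_apply_of_mem (Set.mem_singleton _)]
    exact one_pos
  | succ n ih =>
    show 0 < conv μ (cp μ n) {(n + 1) • w}
    have hm : Measurable fun p : Tor × Tor => p.1 + p.2 := by fun_prop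
    unfold conv
    rw [Measure.map_apply hm (measurableSet_singleton _)]
    refine lt_of_lt_of_le ?_ (measure_mono (show ({w} : Set Tor) ×ˢ ({n • w} : Set Tor) ⊆ _ from ?_))
    · rw [Measure.prod_prod]
      exact ENNReal.mul_pos hw.ne' ih.ne'
    · rintro ⟨x, y⟩ ⟨hx, hy⟩
      rw [Set.mem_singleton_iff] at hx hy
      simp only at hx hy
      rw [Set.mem_preimage, hx, hy, Set.mem_singleton_iff]
      simp only
      rw [succ_nsmul, add_comm]

/-- positive convolution powers of a measure without atoms have none -/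
theorem cp_no_atom {μ : Measure Tor} [IsProbabilityMeasure μ] (hat : ∀ x, μ {x} = 0) {n : ℕ}
    (hn : 1 ≤ n) (x : Tor) : cp μ n {x} = 0 := by
  obtain ⟨k, rfl⟩ := Nat.exists_eq_add_of_le' hn
  show conv μ (cp μ k) {x} = 0
  have hm : Measurable fun p : Tor × Tor => p.1 + p.2 := by fun_prop
  unfold conv
  rw [Measure.map_apply hm (measurableSet_singleton _),
    Measure.prod_apply_symm (hm (measurableSet_singleton _))]
  have : ∀ y : Tor, μ ((fun x' => (x', y)) ⁻¹' ((fun p : Tor × Tor => p.1 + p.2) ⁻¹' {x})) = 0 := by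
    intro y
    have : ((fun x' => (x', y)) ⁻¹' ((fun p : Tor × Tor => p.1 + p.2) ⁻¹' {x})) = {x - y} := by
      ext z
      simp only [Set.mem_preimage, Set.mem_singleton_iff]
      exact eq_sub_iff_add_eq.symm
    rw [this]
    exact hat _
  simp only [this, lintegral_zero]

theorem not_singular_of_common {α β lam : Measure Tor} [IsProbabilityMeasure lam] {c d : ℝ≥0∞}
    (h1 : lam ≤ c • α) (h2 : lam ≤ d • β) : ¬ Measure.MutuallySingular α β := by
  rintro ⟨s, hs, ha, hb⟩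
  have e1 : lam s = 0 := by
    refine le_antisymm ((h1 s).trans ?_) bot_le
    rw [Measure.smul_apply, ha, smul_zero]
  have e2 : lam sᶜ = 0 := by
    refine le_antisymm ((h2 sᶜ).trans ?_) bot_le
    rw [Measure.smul_apply, hb, smul_zero]
  have e3 : lam Set.univ = 0 := by
    rw [← Set.union_compl_self s]
    exact measure_union_null e1 e2
  rw [measure_univ] at e3
  exact one_ne_zero e3

variable {s2 s3 t : Equiv.Perm ℚ}

/-- an invariant measure gives a trace vanishing off the translations -/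
theorem exists_trace (h2 : ∀ x : ℚ, s2 x = 2 * x) (h3 : ∀ x : ℚ, s3 x = 3 * x)
    (ht : ∀ x : ℚ, t x = x + 1) {τ : GG s2 s3 t} (hτ : (τ : Equiv.Perm ℚ) = t)
    {ν : Measure Tor} [IsProbabilityMeasure ν] (hν : Inv ν) :
    ∃ g ∈ TR (GG s2 s3 t), (∀ x, ¬ IsTr x → g x = 0) ∧
      ∀ n : ℤ, ∫ x, (fourier n x : ℂ) ∂ν = g (τ ^ n) := by
  obtain ⟨g, hg, h0, h1⟩ := Helper35.IPZ.zero_ext h2 h3 ht hτ (ipd_ft hν)
  exact ⟨g, hg, h0, fun n => (h1 n).symm⟩

theorem ft_cp {μ : Measure Tor} [IsProbabilityMeasure μ] (n : ℕ) (k : ℤ) :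
    ∫ x, (fourier k x : ℂ) ∂(cp μ n) = (∫ x, (fourier k x : ℂ) ∂μ) ^ n := by
  induction n with
  | zero =>
    show ∫ x, (fourier k x : ℂ) ∂(Measure.dirac (0 : Tor)) = _
    rw [integral_dirac, pow_zero, fourier_apply, smul_zero]
    simp
  | succ n ih =>
    show ∫ x, (fourier k x : ℂ) ∂(conv μ (cp μ n)) = _
    rw [Helper16.SAG.fourier_conv, ih, pow_succ']

/-- the function `φ ^ n` on the translations -/
noncomputable def pw (φ : GG s2 s3 t → ℂ) (n : ℕ) : GG s2 s3 t → ℂ :=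
  Set.indicator {x | ∃ r : ℚ, ∀ y : ℚ, (x : Equiv.Perm ℚ) y = y + r} (φ ^ n)

theorem isTr_zpow (ht : ∀ x : ℚ, t x = x + 1) {τ : GG s2 s3 t} (hτ : (τ : Equiv.Perm ℚ) = t)
    (n : ℤ) : IsTr (τ ^ n) := by
  refine ⟨n, fun x => ?_⟩
  rw [Subgroup.coe_zpow, hτ, t_zpow ht]

theorem pw_tau (ht : ∀ x : ℚ, t x = x + 1) {τ : GG s2 s3 t} (hτ : (τ : Equiv.Perm ℚ) = t)
    (φ : GG s2 s3 t → ℂ) (n : ℕ) (k : ℤ) : pw φ n (τ ^ k) = φ (τ ^ k) ^ n := by
  unfold pw
  rw [Set.indicator_of_mem (show τ ^ k ∈ {x : GG s2 s3 t | ∃ r : ℚ, ∀ y : ℚ,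
    (x : Equiv.Perm ℚ) y = y + r} from isTr_zpow ht hτ k), Pi.pow_apply]

/-- components of the restricted powers, from measures to traces -/
theorem component (h2 : ∀ x : ℚ, s2 x = 2 * x) (h3 : ∀ x : ℚ, s3 x = 3 * x)
    (ht : ∀ x : ℚ, t x = x + 1) {τ : GG s2 s3 t} (hτ : (τ : Equiv.Perm ℚ) = t)
    {φ : GG s2 s3 t → ℂ} (hφ : φ ∈ TR (GG s2 s3 t)) {μ : Measure Tor} [IsProbabilityMeasure μ]
    (hμ : ∀ n : ℤ, ∫ x, (fourier n x : ℂ) ∂μ = φ (τ ^ n)) {n : ℕ} (hi : Inv (cp μ n))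
    {ρ : Measure Tor} [IsProbabilityMeasure ρ] (hρ : Inv ρ) {c : ℝ≥0∞} (hc : c ≠ ⊤)
    (hle : ρ ≤ c • cp μ n) {g : GG s2 s3 t → ℂ} (hg : g ∈ TR (GG s2 s3 t))
    (hg0 : ∀ x, ¬ IsTr x → g x = 0) (hgρ : ∀ n : ℤ, ∫ x, (fourier n x : ℂ) ∂ρ = g (τ ^ n)) :
    ∃ g' ∈ TR (GG s2 s3 t), ∃ a : ℝ, 0 < a ∧ a ≤ 1 ∧ pw φ n = a • g + (1 - a) • g' := by
  obtain ⟨a, σ, ha0, ha1, hσp, hσ, hdec⟩ := split_measure hi hρ hc hle
  obtain ⟨g', hg', hg0', hgσ⟩ := exists_trace h2 h3 ht hτ hσ
  refine ⟨g', hg', a, ha0, ha1.le, ?_⟩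
  have key : ∀ k : ℤ, φ (τ ^ k) ^ n = a * g (τ ^ k) + (1 - a) * g' (τ ^ k) := by
    intro k
    rw [← hμ, ← ft_cp, hdec, ← hgρ, ← hgσ]
    have hint : ∀ (b : ℝ) (κ : Measure Tor) [IsProbabilityMeasure κ],
        Integrable (fun x => (fourier k x : ℂ)) (ENNReal.ofReal b • κ) := fun b κ _ =>
      ((fourier k).continuous.integrable_of_hasCompactSupport
        (HasCompactSupport.of_compactSpace _)).smul_measure ENNReal.ofReal_ne_top
    rw [integral_add_measure (hint _ _) (hint _ _), integral_smul_measure, integral_smul_measure,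
      ENNReal.toReal_ofReal ha0.le, ENNReal.toReal_ofReal (by linarith)]
    simp
  funext x
  rw [Pi.add_apply, Pi.smul_apply, Pi.smul_apply, Complex.real_smul, Complex.real_smul]
  by_cases hx : IsTr x
  · obtain ⟨k, s, hk, -⟩ := Helper91.TTT.trans_conj' h2 h3 ht hτ x hx
    unfold pw
    rw [Set.indicator_of_mem (show x ∈ _ from hx), Pi.pow_apply, hk, hφ.2.1, hg.2.1, hg'.2.1, key k]
    push_cast
    ring
  · unfold pw
    rw [Set.indicator_of_notMem (show x ∉ _ from hx), hg0 x hx, hg0' x hx]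
    simp

/-- components of the restricted powers, from traces to measures -/
theorem le_of_component (ht : ∀ x : ℚ, t x = x + 1) {τ : GG s2 s3 t} (hτ : (τ : Equiv.Perm ℚ) = t)
    {φ : GG s2 s3 t → ℂ} {μ : Measure Tor} [IsProbabilityMeasure μ]
    (hμ : ∀ n : ℤ, ∫ x, (fourier n x : ℂ) ∂μ = φ (τ ^ n)) {n : ℕ}
    {g g' : GG s2 s3 t → ℂ} (hg' : g' ∈ TR (GG s2 s3 t)) {a : ℝ} (h0 : 0 < a) (h1 : a ≤ 1)
    (h : pw φ n = a • g + (1 - a) • g') {lam : Measure Tor} [IsProbabilityMeasure lam]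
    (hl : ∀ n : ℤ, ∫ x, (fourier n x : ℂ) ∂lam = g (τ ^ n)) :
    lam ≤ (ENNReal.ofReal a)⁻¹ • cp μ n := by
  have e := Helper16.CG.le_of_comp (G := GG s2 s3 t) (τ := τ) (φ := pw φ n) (ψ := 1) (χ := g)
    (μ := cp μ n) (ν := Measure.dirac 0) (lam := lam) hg' h0 h1 (by rw [mul_one]; exact h)
    (fun k => by rw [ft_cp, hμ, pw_tau ht hτ]) (fun k => by
      rw [integral_dirac, fourier_apply, smul_zero]
      simp) hl
  rwa [conv_zero] at e

/-- a finite dimensional extreme trace has a torsion atom -/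
theorem torsion_atom (h2 : ∀ x : ℚ, s2 x = 2 * x) (h3 : ∀ x : ℚ, s3 x = 3 * x)
    (ht : ∀ x : ℚ, t x = x + 1) {τ : GG s2 s3 t} (hτ : (τ : Equiv.Perm ℚ) = t)
    {φ : GG s2 s3 t → ℂ} (hφ : φ ∈ Set.extremePoints ℝ (TR (GG s2 s3 t)))
    {μ : Measure Tor} [IsProbabilityMeasure μ]
    (hμ : ∀ n : ℤ, ∫ x, (fourier n x : ℂ) ∂μ = φ (τ ^ n))
    (hfd : FiniteDimensional ℂ (Submodule.span ℂ {F : GG s2 s3 t → ℂ | ∃ n : GG s2 s3 t,
      IsTr n ∧ F = fun x => φ (n * x)})) :
    ∃ (w : Tor) (q : ℕ), 1 ≤ q ∧ q • w = 0 ∧ 0 < μ {w} := by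
  obtain ⟨q, hq, hq1⟩ := Helper35.IPZ.fd_period h2 h3 ht hτ hφ hfd
  obtain ⟨O, hO, -, hpos, hat⟩ := Helper16.SAG.support_of_fd h2 h3 ht hτ hφ.1 hμ
    (inv_of_trace h2 h3 ht hτ hφ.1 hμ) hfd
  obtain ⟨w, hw⟩ := Finset.card_pos.1 hpos
  have hw' := hat w hw
  have hint : ∀ f : Tor → ℝ, Continuous f → Integrable f μ := fun f hf =>
    hf.integrable_of_hasCompactSupport (HasCompactSupport.of_compactSpace _)
  have hc : Continuous fun x : Tor => 1 - (fourier (q : ℤ) x : ℂ).re := by fun_prop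
  have h0 : ∀ x : Tor, 0 ≤ 1 - (fourier (q : ℤ) x : ℂ).re := by
    intro x
    have h5 : (fourier (q : ℤ) x : ℂ).re ≤ ‖(fourier (q : ℤ) x : ℂ)‖ := Complex.re_le_norm _
    have h6 : ‖(fourier (q : ℤ) x : ℂ)‖ = 1 := by rw [fourier_apply, Circle.norm_coe]
    linarith
  have h1 : ∫ x, (1 - (fourier (q : ℤ) x : ℂ).re) ∂μ = 0 := by
    rw [integral_sub (integrable_const _) (hint _ (by fun_prop))]
    have h5 : ∫ x, (fourier (q : ℤ) x : ℂ).re ∂μ = (∫ x, (fourier (q : ℤ) x : ℂ) ∂μ).re := by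
      have hi : Integrable (fun x : Tor => (fourier (q : ℤ) x : ℂ)) μ :=
        (fourier (q : ℤ)).continuous.integrable_of_hasCompactSupport
          (HasCompactSupport.of_compactSpace _)
      exact integral_re hi
    rw [h5, hμ, hq1]
    simp
  have h2' : (fun x : Tor => 1 - (fourier (q : ℤ) x : ℂ).re) =ᵐ[μ] 0 :=
    (integral_eq_zero_iff_of_nonneg h0 (hint _ hc)).1 h1
  have h3' : (1 - (fourier (q : ℤ) w : ℂ).re) = 0 := by
    by_contra hne
    have h5 : μ {x | ¬ ((1 : ℝ) - (fourier (q : ℤ) x : ℂ).re = (0 : Tor → ℝ) x)} = 0 := h2'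
    have h6 : μ {w} ≤ 0 := by
      rw [← h5]
      exact measure_mono (Set.singleton_subset_iff.2 hne)
    rw [measureReal_def, le_antisymm h6 bot_le] at hw'
    simp at hw'
  have hw0 : 0 < μ {w} := by
    rw [measureReal_def] at hw'
    exact (ENNReal.toReal_pos_iff.1 hw').1
  refine ⟨w, q, hq, ?_, hw0⟩
  have h4 : (fourier (q : ℤ) w : ℂ).re = 1 := by linarith
  have h5 : (fourier (q : ℤ) w : ℂ) = 1 := by
    have h6 : ‖(fourier (q : ℤ) w : ℂ)‖ = 1 := by rw [fourier_apply, Circle.norm_coe]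
    have h7 := Complex.sq_norm_sub_sq_re (fourier (q : ℤ) w : ℂ)
    rw [h6, h4] at h7
    have h8 : (fourier (q : ℤ) w : ℂ).im = 0 := by
      have : (fourier (q : ℤ) w : ℂ).im ^ 2 = 0 := by linarith
      exact pow_eq_zero_iff (two_ne_zero) |>.1 this
    exact Complex.ext (by rw [h4]; rfl) (by rw [h8]; rfl)
  have h6 : AddCircle.toCircle ((q : ℤ) • w) = 1 := by
    rw [fourier_apply] at h5
    exact Circle.ext (by rw [h5]; rfl)
  have h7 : AddCircle.toCircle ((q : ℤ) • w) = AddCircle.toCircle (0 : Tor) := by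
    rw [h6, AddCircle.toCircle_zero]
  have h8 := AddCircle.injective_toCircle one_ne_zero h7
  rwa [natCast_zsmul] at h8

end Helper35.IP
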