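import Mathlib
import Pool.Agent.Helper75.IP.DefsG
import Pool.Agent.Helper35.IP.Trace

/-!
# Independent powers: monomials of traces and their measures
-/

set_option autoImplicit false

open MeasureTheory Filter Topology Finset Helper17.FU Helper17.FUGroup Helper35.AG Helper75.IP
open Helper91.TTT (GG IsTr)
open scoped ENNReal ComplexConjugate ComplexOrder

namespace Helper35.IP

/-- the list of the factors of a monomial -/
noncomputable def lst {k : ℕ} (μ : Fin k → Measure Tor) (a b : Fin k → ℕ) : List (Measure Tor) :=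
  (List.ofFn fun i => List.replicate (a i) (μ i) ++ List.replicate (b i) (Helper75.IP.refl (μ i))).flatten

/-- the measure of a monomial -/
noncomputable def mm {k : ℕ} (μ : Fin k → Measure Tor) (a b : Fin k → ℕ) : Measure Tor :=
  cpl (lst μ a b)

theorem mem_lst {k : ℕ} {μ : Fin k → Measure Tor} {a b : Fin k → ℕ} {ν : Measure Tor}
    (h : ν ∈ lst μ a b) : ∃ i, ν = μ i ∨ ν = Helper75.IP.refl (μ i) := by
  unfold lst at h
  rw [List.mem_flatten] at h
  obtain ⟨l, hl, hν⟩ := h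
  rw [List.mem_ofFn] at hl
  obtain ⟨i, rfl⟩ := hl
  rw [List.mem_append] at hν
  rcases hν with h | h
  · exact ⟨i, Or.inl (List.eq_of_mem_replicate h)⟩
  · exact ⟨i, Or.inr (List.eq_of_mem_replicate h)⟩

theorem refl_prob {μ : Measure Tor} (h : IsProbabilityMeasure μ) :
    IsProbabilityMeasure (Helper75.IP.refl μ) :=
  Measure.isProbabilityMeasure_map measurable_neg.aemeasurable

theorem lst_prob {k : ℕ} {μ : Fin k → Measure Tor} (h : ∀ i, IsProbabilityMeasure (μ i))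
    (a b : Fin k → ℕ) : ∀ ν ∈ lst μ a b, IsProbabilityMeasure ν := by
  intro ν hν
  obtain ⟨i, rfl | rfl⟩ := mem_lst hν
  · exact h i
  · exact refl_prob (h i)

theorem mm_prob {k : ℕ} {μ : Fin k → Measure Tor} (h : ∀ i, IsProbabilityMeasure (μ i))
    (a b : Fin k → ℕ) : IsProbabilityMeasure (mm μ a b) := cpl_prob' (lst_prob h a b)

theorem sum_lst {k : ℕ} (μ : Fin k → Measure Tor) (a b : Fin k → ℕ) (w : Measure Tor → ℝ) :
    ((lst μ a b).map w).sum = ∑ i, ((a i : ℝ) * w (μ i) + b i * w (Helper75.IP.refl (μ i))) := by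
  unfold lst
  rw [List.map_flatten, List.sum_flatten, List.map_map, List.map_ofFn, List.sum_ofFn]
  refine Finset.sum_congr rfl fun i _ => ?_
  simp

theorem ft_cpl {L : List (Measure Tor)} (h : ∀ ν ∈ L, IsProbabilityMeasure ν) (n : ℤ) :
    ∫ x, (fourier n x : ℂ) ∂(cpl L) = (L.map fun ν => ∫ x, (fourier n x : ℂ) ∂ν).prod := by
  induction L with
  | nil =>
    show ∫ x, (fourier n x : ℂ) ∂(Measure.dirac (0 : Tor)) = _
    rw [integral_dirac, fourier_apply, smul_zero]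
    simp
  | cons ν L ih =>
    have h1 := h ν List.mem_cons_self
    have h2 : ∀ ν ∈ L, IsProbabilityMeasure ν := fun μ hμ => h μ (List.mem_cons_of_mem ν hμ)
    have := cpl_prob' h2
    show ∫ x, (fourier n x : ℂ) ∂(conv ν (cpl L)) = _
    rw [Helper16.SAG.fourier_conv, ih h2, List.map_cons, List.prod_cons]

theorem ft_refl (μ : Measure Tor) (n : ℤ) :
    ∫ x, (fourier n x : ℂ) ∂(Helper75.IP.refl μ) = star (∫ x, (fourier n x : ℂ) ∂μ) := by
  unfold Helper75.IP.refl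
  rw [integral_map measurable_neg.aemeasurable (fourier n).continuous.aestronglyMeasurable,
    Complex.star_def, ← integral_conj]
  refine integral_congr_ae (Eventually.of_forall fun x => ?_)
  simp only
  rw [← fourier_neg, fourier_apply, fourier_apply, smul_neg, neg_smul]

theorem ft_mm {k : ℕ} {μ : Fin k → Measure Tor} (h : ∀ i, IsProbabilityMeasure (μ i))
    (a b : Fin k → ℕ) (n : ℤ) : ∫ x, (fourier n x : ℂ) ∂(mm μ a b) =
      ∏ i, ((∫ x, (fourier n x : ℂ) ∂(μ i)) ^ a i * star (∫ x, (fourier n x : ℂ) ∂(μ i)) ^ b i) := by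
  unfold mm
  rw [ft_cpl (lst_prob h a b)]
  unfold lst
  rw [List.map_flatten, List.prod_flatten, List.map_map, List.map_ofFn, List.prod_ofFn]
  refine Finset.prod_congr rfl fun i _ => ?_
  simp only [Function.comp_apply, List.map_append, List.map_replicate, List.prod_append,
    List.prod_replicate, ft_refl]

theorem refl_refl (μ : Measure Tor) : Helper75.IP.refl (Helper75.IP.refl μ) = μ := by
  unfold Helper75.IP.refl
  rw [Measure.map_map measurable_neg measurable_neg]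
  have : ((fun x : Tor => -x) ∘ fun x : Tor => -x) = id := by
    funext x
    simp
  rw [this, Measure.map_id]

theorem eq_of_ft {α β : Measure Tor} [IsProbabilityMeasure α] [IsProbabilityMeasure β]
    (h : ∀ n : ℤ, ∫ x, (fourier n x : ℂ) ∂α = ∫ x, (fourier n x : ℂ) ∂β) : α = β :=
  Helper17.TranslM.eq_of_fourier h

/-- the symmetric list -/
noncomputable def sy {k : ℕ} (μ : Fin k → Measure Tor) : List (Measure Tor) :=
  lst μ (fun _ => 1) (fun _ => 1)

theorem mem_sy {k : ℕ} (μ : Fin k → Measure Tor) (i : Fin k) :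
    μ i ∈ sy μ ∧ Helper75.IP.refl (μ i) ∈ sy μ := by
  unfold sy lst
  constructor <;>
  · rw [List.mem_flatten]
    refine ⟨[μ i] ++ [Helper75.IP.refl (μ i)], ?_, by simp⟩
    rw [List.mem_ofFn]
    exact ⟨i, by simp⟩

theorem sy_symm {k : ℕ} {μ : Fin k → Measure Tor} (h : ∀ i, IsProbabilityMeasure (μ i)) :
    Helper75.IP.refl (cpl (sy μ)) = cpl (sy μ) := by
  have h1 : IsProbabilityMeasure (cpl (sy μ)) := mm_prob h _ _
  have h2 := refl_prob h1
  refine eq_of_ft fun n => ?_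
  rw [ft_refl]
  show star (∫ x, (fourier n x : ℂ) ∂(mm μ _ _)) = ∫ x, (fourier n x : ℂ) ∂(mm μ _ _)
  rw [ft_mm h, star_prod]
  refine Finset.prod_congr rfl fun i _ => ?_
  rw [pow_one, pow_one, star_mul', star_star, mul_comm]

theorem lst_sub {k : ℕ} (μ : Fin k → Measure Tor) (a b : Fin k → ℕ) :
    ∀ ν ∈ lst μ a b, ν ∈ sy μ := by
  intro ν hν
  obtain ⟨i, rfl | rfl⟩ := mem_lst hν
  · exact (mem_sy μ i).1
  · exact (mem_sy μ i).2

theorem dom {k : ℕ} (μ : Fin k → Measure Tor) {a b a' b' : Fin k → ℕ}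
    (h : ∀ i, a' i + b' i < a i + b i) : Dom (sy μ) (lst μ a b) (lst μ a' b') := by
  refine ⟨2, by norm_num, fun w hw hr => ?_⟩
  unfold sy
  rw [sum_lst, sum_lst, sum_lst, ← Finset.sum_sub_distrib, Finset.mul_sum]
  refine Finset.sum_le_sum fun i _ => ?_
  rw [hr _ (mem_sy μ i).1]
  have h1 := hw _ (mem_sy μ i).1
  have h2 : ((a' i : ℝ) + b' i) + 1 ≤ a i + b i := by exact_mod_cast h i
  push_cast
  nlinarith

variable {s2 s3 t : Equiv.Perm ℚ}

/-- a monomial in the traces `f i` and their complex conjugates -/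
noncomputable def mono {k : ℕ} (f : Fin k → GG s2 s3 t → ℂ) (a b : Fin k → ℕ) :
    GG s2 s3 t → ℂ := ∏ i, (f i ^ a i * star (f i) ^ b i)

theorem mono_apply {k : ℕ} (f : Fin k → GG s2 s3 t → ℂ) (a b : Fin k → ℕ) (x : GG s2 s3 t) :
    mono f a b x = ∏ i, (f i x ^ a i * star (f i x) ^ b i) := by
  unfold mono
  rw [Finset.prod_apply]
  rfl

theorem mono_conj {k : ℕ} {f : Fin k → GG s2 s3 t → ℂ}
    (hf : ∀ i, ∀ g h : GG s2 s3 t, f i (h * g * h⁻¹) = f i g) (a b : Fin k → ℕ)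
    (g h : GG s2 s3 t) : mono f a b (h * g * h⁻¹) = mono f a b g := by
  rw [mono_apply, mono_apply]
  simp only [hf]

theorem mono_pow {k : ℕ} (f : Fin k → GG s2 s3 t → ℂ) (a b : Fin k → ℕ) (n : ℕ) :
    mono f a b ^ n = mono f (fun i => n * a i) (fun i => n * b i) := by
  funext x
  rw [Pi.pow_apply, mono_apply, mono_apply, ← Finset.prod_pow]
  refine Finset.prod_congr rfl fun i _ => ?_
  rw [mul_pow, ← pow_mul, ← pow_mul, mul_comm (a i), mul_comm (b i)]

/-- components of a class function on the translations, from measures to traces -/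
theorem component' (h2 : ∀ x : ℚ, s2 x = 2 * x) (h3 : ∀ x : ℚ, s3 x = 3 * x)
    (ht : ∀ x : ℚ, t x = x + 1) {τ : GG s2 s3 t} (hτ : (τ : Equiv.Perm ℚ) = t)
    {Ψ : GG s2 s3 t → ℂ} (hΨ : ∀ g h : GG s2 s3 t, Ψ (h * g * h⁻¹) = Ψ g)
    {α : Measure Tor} [IsProbabilityMeasure α]
    (hα : ∀ n : ℤ, ∫ x, (fourier n x : ℂ) ∂α = Ψ (τ ^ n)) (hi : Inv α)
    {ρ : Measure Tor} [IsProbabilityMeasure ρ] (hρ : Inv ρ) {c : ℝ≥0∞} (hc : c ≠ ⊤)
    (hle : ρ ≤ c • α) {g : GG s2 s3 t → ℂ} (hg : g ∈ TR (GG s2 s3 t))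
    (hg0 : ∀ x, ¬ IsTr x → g x = 0) (hgρ : ∀ n : ℤ, ∫ x, (fourier n x : ℂ) ∂ρ = g (τ ^ n)) :
    ∃ g' ∈ TR (GG s2 s3 t), ∃ a : ℝ, 0 < a ∧ a ≤ 1 ∧
      Set.indicator {x : GG s2 s3 t | ∃ r : ℚ, ∀ y : ℚ, (x : Equiv.Perm ℚ) y = y + r} Ψ =
        a • g + (1 - a) • g' := by
  obtain ⟨a, σ, ha0, ha1, hσp, hσ, hdec⟩ := split_measure hi hρ hc hle
  obtain ⟨g', hg', hg0', hgσ⟩ := exists_trace h2 h3 ht hτ hσ
  refine ⟨g', hg', a, ha0, ha1.le, ?_⟩
  have key : ∀ k : ℤ, Ψ (τ ^ k) = a * g (τ ^ k) + (1 - a) * g' (τ ^ k) := by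
    intro k
    rw [← hα, hdec, ← hgρ, ← hgσ]
    have hint : ∀ (b : ℝ) (κ : Measure Tor) [IsProbabilityMeasure κ],
        Integrable (fun x => (fourier k x : ℂ)) (ENNReal.ofReal b • κ) := fun b κ _ =>
      ((fourier k).continuous.integrable_of_hasCompactSupport
        (HasCompactSupport.of_compactSpace _)).smul_measure ENNReal.ofReal_ne_top
    rw [integral_add_measure (hint _ _) (hint _ _), integral_smul_measure, integral_smul_measure,
      ENNReal.toReal_ofReal ha0.le, ENNReal.toReal_ofReal (by linarith)]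
    simp
  funext x
  rw [Pi.add_apply, Pi.smul_apply, Pi.smul_apply, Complex.real_smul, Complex.real_smul]
  by_cases hx : IsTr x
  · obtain ⟨k, s, hk, -⟩ := Helper91.TTT.trans_conj' h2 h3 ht hτ x hx
    rw [Set.indicator_of_mem (show x ∈ {x : GG s2 s3 t | ∃ r : ℚ, ∀ y : ℚ,
      (x : Equiv.Perm ℚ) y = y + r} from hx), hk, hΨ, hg.2.1, hg'.2.1, key k]
    push_cast
    ring
  · rw [Set.indicator_of_notMem (show x ∉ {x : GG s2 s3 t | ∃ r : ℚ, ∀ y : ℚ,
      (x : Equiv.Perm ℚ) y = y + r} from hx), hg0 x hx, hg0' x hx]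
    simp

/-- components on the translations, from traces to measures -/
theorem le_of_component' (ht : ∀ x : ℚ, t x = x + 1) {τ : GG s2 s3 t}
    (hτ : (τ : Equiv.Perm ℚ) = t) {Ψ : GG s2 s3 t → ℂ} {α : Measure Tor} [IsProbabilityMeasure α]
    (hα : ∀ n : ℤ, ∫ x, (fourier n x : ℂ) ∂α = Ψ (τ ^ n))
    {g g' : GG s2 s3 t → ℂ} (hg' : g' ∈ TR (GG s2 s3 t)) {a : ℝ} (h0 : 0 < a) (h1 : a ≤ 1)
    (h : Set.indicator {x : GG s2 s3 t | ∃ r : ℚ, ∀ y : ℚ, (x : Equiv.Perm ℚ) y = y + r} Ψ =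
      a • g + (1 - a) • g') {lam : Measure Tor} [IsProbabilityMeasure lam]
    (hl : ∀ n : ℤ, ∫ x, (fourier n x : ℂ) ∂lam = g (τ ^ n)) :
    lam ≤ (ENNReal.ofReal a)⁻¹ • α := by
  have e := Helper16.CG.le_of_comp (G := GG s2 s3 t) (τ := τ)
    (φ := Set.indicator {x : GG s2 s3 t | ∃ r : ℚ, ∀ y : ℚ, (x : Equiv.Perm ℚ) y = y + r} Ψ) (ψ := 1) (χ := g)
    (μ := α) (ν := Measure.dirac 0) (lam := lam) hg' h0 h1 (by rw [mul_one]; exact h)
    (fun k => by
      rw [hα, Set.indicator_of_mem (show τ ^ k ∈ {x : GG s2 s3 t | ∃ r : ℚ, ∀ y : ℚ,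
        (x : Equiv.Perm ℚ) y = y + r} from isTr_zpow ht hτ k)]) (fun k => by
      rw [integral_dirac, fourier_apply, smul_zero]
      simp) hl
  rwa [conv_zero] at e

end Helper35.IP
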