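import Mathlib
import Pool.Agent.Helper75.IP.Core3
import Pool.Agent.Helper16.IP.Common
import Pool.Agent.Helper26.IP2.Inv
import Pool.Agent.Helper97.IP.Main
import Pool.Agent.Helper40.IP.Zero

/-!
# Independent powers: assembly
-/

set_option autoImplicit false
open MeasureTheory Filter Topology ProbabilityTheory Helper35.AG Helper75.IP
open scoped ENNReal

namespace Helper35.IP

/-- independent powers -/
theorem indep {μ : Measure Tor} [IsProbabilityMeasure μ] (hμ : Inv μ) (hext : Ext μ)
    (hat : ∀ x, μ {x} = 0) (hne : μ ≠ volume) {m n : ℕ} (hm : 1 ≤ m) (hmn : m < n) :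
    Measure.MutuallySingular (cp μ n) (cp μ m) := by
  by_contra h
  obtain ⟨ρ, c, hρp, hρ, hc, h1, h2⟩ :=
    Helper16.IP.common (Helper26.IP.inv_cp hμ n) (Helper26.IP.inv_cp hμ m) h
  by_cases hR : Rigid μ
  · choose N hN0 hN using fun k : ℕ => hR (1 / ((k : ℝ) + 1)) Nat.one_div_pos_of_nat
    have h0 : Tendsto (fun k => ∫ x, ‖(fourier (N k) x : ℂ) - 1‖ ^ 2 ∂μ) atTop (𝓝 0) :=
      squeeze_zero (fun k => integral_nonneg fun x => by positivity) (fun k => (hN k).le)
        tendsto_one_div_add_atTop_nhds_zero_nat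
    have e1 := Helper97.IP.rigid_ratio hμ hext hat hN0 h0 n hρ hc h1
    have e2 := Helper97.IP.rigid_ratio hμ hext hat hN0 h0 m hρ hc h2
    have e3 : (n : ℝ) = m := tendsto_nhds_unique e1 e2
    exact hmn.ne' (by exact_mod_cast e3)
  · obtain ⟨C, hC⟩ := Helper75.IP.C.core (U := hyperfilter ℕ) hμ hext
      ((hyperfilter_le_cofinite (α := ℕ)).trans_eq Nat.cofinite_eq_atTop) hR hm hmn hρ hc h1 h2
    have h3 : Tendsto (fun K : ℕ => C * (ent μ K / K + Real.log 2 / K)) atTop (𝓝 (C * (0 + 0))) :=
      ((Pool.Agent.Helper40.IP.zero_ent hμ hext hne).add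
        (tendsto_const_nhds.div_atTop tendsto_natCast_atTop_atTop)).const_mul C
    have h4 : Real.log 2 ≤ C * (0 + 0) := by
      refine ge_of_tendsto h3 ((eventually_gt_atTop 0).mono fun K hK => ?_)
      have hK' : (0 : ℝ) < K := by exact_mod_cast hK
      have h5 := hC K
      have h6 : C * (ent μ K / K + Real.log 2 / K) = C * (ent μ K + Real.log 2) / K := by ring
      rw [h6, le_div_iff₀ hK']
      linarith
    have := Real.log_pos one_lt_two
    simp only [add_zero, mul_zero] at h4
    linarith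

end Helper35.IP
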