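import Mathlib
import Pool.Agent.Helper75.IP.DefsG
import Pool.Agent.Helper75.IP.RF
import Pool.Agent.Helper97.IP.RL
import Pool.Agent.Helper16.IP.Common
import Pool.Agent.Helper40.IP.Zero
import Pool.Agent.Helper97.IP.Char

/-!
# Independent powers for monomials: the functions W
-/

set_option autoImplicit false
open MeasureTheory Filter Topology ProbabilityTheory Helper35.AG Helper75.IP
open scoped ENNReal

namespace Helper35.IP

theorem W_nonneg (n : ℤ) (μ : Measure Tor) : 0 ≤ W n μ :=
  integral_nonneg fun _ => by positivity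

theorem W_refl (n : ℤ) (μ : Measure Tor) : W n (refl μ) = W n μ := by
  unfold W Helper75.IP.refl
  rw [integral_map measurable_neg.aemeasurable]
  · refine integral_congr_ae (Eventually.of_forall fun x => ?_)
    show ‖(fourier n (-x) : ℂ) - 1‖ ^ 2 = ‖(fourier n x : ℂ) - 1‖ ^ 2
    have h : (fourier n (-x) : ℂ) = star (fourier n x : ℂ) := by
      rw [Complex.star_def, ← fourier_neg, fourier_apply, fourier_apply, smul_neg, neg_smul]
    have h2 : (fourier n (-x) : ℂ) - 1 = star ((fourier n x : ℂ) - 1) := by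
      rw [h, star_sub, star_one]
    rw [h2, norm_star]
  · exact ((((fourier n).continuous.sub continuous_const).norm).pow 2).aestronglyMeasurable

theorem W_pos {μ : Measure Tor} [IsProbabilityMeasure μ] (hat : ∀ x, μ {x} = 0) {n : ℤ}
    (hn : n ≠ 0) : 0 < W n μ := Helper97.IP.E_pos hat hn

/-- rigidity of a product passes to all factors -/
theorem rigid_all {N : ℕ → ℤ} : ∀ {S : List (Measure Tor)}, (∀ μ ∈ S, Good μ) →
    Tendsto (fun k => W (N k) (cpl S)) atTop (𝓝 0) →
    ∀ μ ∈ S, Tendsto (fun k => W (N k) μ) atTop (𝓝 0)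
  | [], _, _, μ, hμ => by simp at hμ
  | ν :: S, hS, h, μ, hμ => by
    have h1 := hS ν List.mem_cons_self
    have h2 : ∀ μ ∈ S, Good μ := fun μ hμ => hS μ (List.mem_cons_of_mem ν hμ)
    have := h1.prob
    have := cpl_prob h2
    obtain ⟨a, b⟩ := Helper75.IP.F.rigid_factor h1.inv (cpl_inv h2) h
    rcases List.mem_cons.1 hμ with h3 | h3
    · rw [h3]
      exact a
    · exact rigid_all h2 b μ h3

theorem le_sum {S : List (Measure Tor)} {w : Measure Tor → ℝ} (hw : ∀ ν, 0 ≤ w ν)
    {μ : Measure Tor} (hμ : μ ∈ S) : w μ ≤ (S.map w).sum :=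
  List.single_le_sum (fun x hx => by
    obtain ⟨ν, -, rfl⟩ := List.mem_map.1 hx
    exact hw ν) _ (List.mem_map_of_mem hμ)

end Helper35.IP
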