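import Mathlib
import Pool.Agent.Helper75.IP.TG
import Pool.Agent.Helper75.IP.IndepT
import Pool.Agent.Helper75.IP.Refl
import Pool.Agent.Helper16.IP.Common
import Pool.Agent.Helper39.IP.WP
import Pool.Agent.Helper35.IP.Mono

/-!
# Independent powers: the list for monomials of extreme traces
-/

set_option autoImplicit false

open MeasureTheory Filter Topology Finset Helper17.FU Helper17.FUGroup Helper35.AG Helper75.IP
open Helper91.TTT (GG IsTr)
open scoped ENNReal ComplexConjugate ComplexOrder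

namespace Helper35.IP

theorem cpl_atom {Q : ℕ} : ∀ {L : List (Measure Tor)}, (∀ ν ∈ L, IsProbabilityMeasure ν) →
    (∀ ν ∈ L, ∃ w : Tor, Q • w = 0 ∧ 0 < ν {w}) → ∃ w : Tor, Q • w = 0 ∧ 0 < cpl L {w}
  | [], _, _ => ⟨0, smul_zero _, by
      show 0 < Measure.dirac (0 : Tor) {0}
      rw [Measure.dirac_apply_of_mem (Set.mem_singleton _)]
      exact one_pos⟩
  | ν :: L, hp, h => by
    have h1 := hp ν List.mem_cons_self
    have h2 : ∀ μ ∈ L, IsProbabilityMeasure μ := fun μ hμ => hp μ (List.mem_cons_of_mem ν hμ)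
    have := cpl_prob' h2
    obtain ⟨w, hw, hw'⟩ := h ν List.mem_cons_self
    obtain ⟨v, hv, hv'⟩ := cpl_atom h2 fun μ hμ => h μ (List.mem_cons_of_mem ν hμ)
    refine ⟨w + v, by rw [smul_add, hw, hv, add_zero], ?_⟩
    show 0 < conv ν (cpl L) {w + v}
    have hm : Measurable fun p : Tor × Tor => p.1 + p.2 := by fun_prop
    unfold conv
    rw [Measure.map_apply hm (measurableSet_singleton _)]
    refine lt_of_lt_of_le ?_ (measure_mono (show ({w} : Set Tor) ×ˢ ({v} : Set Tor) ⊆ _ from ?_))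
    · rw [Measure.prod_prod]
      exact ENNReal.mul_pos hw'.ne' hv'.ne'
    · rintro ⟨x, y⟩ ⟨hx, hy⟩
      rw [Set.mem_singleton_iff] at hx hy
      simp only at hx hy
      rw [Set.mem_preimage, hx, hy, Set.mem_singleton_iff]

theorem eq_volume {α : Measure Tor} [IsProbabilityMeasure α]
    (h : ∀ n : ℤ, n ≠ 0 → ∫ x, (fourier n x : ℂ) ∂α = 0) : α = volume := by
  refine eq_of_ft fun n => ?_
  by_cases hn : n = 0
  · rw [hn]
    simp
  · rw [h n hn, Helper17.TranslM.integral_fourier_vol hn]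

theorem cp_mm {k : ℕ} {μ : Fin k → Measure Tor} (h : ∀ i, IsProbabilityMeasure (μ i))
    (a b : Fin k → ℕ) (n : ℕ) : cp (mm μ a b) n = mm μ (fun i => n * a i) (fun i => n * b i) := by
  have := mm_prob h a b
  have := mm_prob h (fun i => n * a i) (fun i => n * b i)
  refine eq_of_ft fun j => ?_
  rw [ft_cp, ft_mm h, ft_mm h, ← Finset.prod_pow]
  refine Finset.prod_congr rfl fun i _ => ?_
  rw [mul_pow, ← pow_mul, ← pow_mul, mul_comm (a i), mul_comm (b i)]

variable {s2 s3 t : Equiv.Perm ℚ}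

/-- the norm of `F` on the C*-algebra generated by `τ` is at most `B` -/
def NLe (τ : GG s2 s3 t) (F : GG s2 s3 t → ℂ) (B : ℝ) : Prop :=
  ∀ (s : Finset ℤ) (d : ℤ → ℂ), (∀ x : Tor, ‖∑ j ∈ s, d j * fourier j x‖ ≤ 1) →
    ‖∑ j ∈ s, d j * F (τ ^ j)‖ ≤ B

/-- conditionally finite dimensional -/
def FD (φ : GG s2 s3 t → ℂ) : Prop :=
  FiniteDimensional ℂ (Submodule.span ℂ {F : GG s2 s3 t → ℂ | ∃ n : GG s2 s3 t,
    IsTr n ∧ F = fun x => φ (n * x)})

theorem nsmul_eq_zero_of_re {q : ℕ} {w : Tor} (h4 : (fourier (q : ℤ) w : ℂ).re = 1) :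
    q • w = 0 := by
  have h5 : (fourier (q : ℤ) w : ℂ) = 1 := by
    have h6 : ‖(fourier (q : ℤ) w : ℂ)‖ = 1 := by rw [fourier_apply, Circle.norm_coe]
    have h7 := Complex.sq_norm_sub_sq_re (fourier (q : ℤ) w : ℂ)
    rw [h6, h4] at h7
    have h8 : (fourier (q : ℤ) w : ℂ).im = 0 := by
      have : (fourier (q : ℤ) w : ℂ).im ^ 2 = 0 := by linarith
      exact pow_eq_zero_iff (two_ne_zero) |>.1 this
    exact Complex.ext (by rw [h4]; rfl) (by rw [h8]; rfl)
  have h6 : AddCircle.toCircle ((q : ℤ) • w) = 1 := by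
    rw [fourier_apply] at h5
    exact Circle.ext (by rw [h5]; rfl)
  have h7 : AddCircle.toCircle ((q : ℤ) • w) = AddCircle.toCircle (0 : Tor) := by
    rw [h6, AddCircle.toCircle_zero]
  have h8 := AddCircle.injective_toCircle one_ne_zero h7
  rwa [natCast_zsmul] at h8

/-- the measure of a finite dimensional extreme trace is a torsion measure -/
theorem at_of_fd (h2 : ∀ x : ℚ, s2 x = 2 * x) (h3 : ∀ x : ℚ, s3 x = 3 * x)
    (ht : ∀ x : ℚ, t x = x + 1) {τ : GG s2 s3 t} (hτ : (τ : Equiv.Perm ℚ) = t)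
    {φ : GG s2 s3 t → ℂ} (hφ : φ ∈ Set.extremePoints ℝ (TR (GG s2 s3 t)))
    {μ : Measure Tor} [IsProbabilityMeasure μ]
    (hμ : ∀ n : ℤ, ∫ x, (fourier n x : ℂ) ∂μ = φ (τ ^ n)) (hfd : FD φ) : At μ := by
  obtain ⟨q, hq, hq1⟩ := Helper35.IPZ.fd_period h2 h3 ht hτ hφ hfd
  have hint : ∀ f : Tor → ℝ, Continuous f → Integrable f μ := fun f hf =>
    hf.integrable_of_hasCompactSupport (HasCompactSupport.of_compactSpace _)
  have hc : Continuous fun x : Tor => 1 - (fourier (q : ℤ) x : ℂ).re := by fun_prop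
  have h0 : ∀ x : Tor, 0 ≤ 1 - (fourier (q : ℤ) x : ℂ).re := by
    intro x
    have h5 : (fourier (q : ℤ) x : ℂ).re ≤ ‖(fourier (q : ℤ) x : ℂ)‖ := Complex.re_le_norm _
    have h6 : ‖(fourier (q : ℤ) x : ℂ)‖ = 1 := by rw [fourier_apply, Circle.norm_coe]
    linarith
  have h1 : ∫ x, (1 - (fourier (q : ℤ) x : ℂ).re) ∂μ = 0 := by
    rw [integral_sub (integrable_const _) (hint _ (by fun_prop))]
    have h5 : ∫ x, (fourier (q : ℤ) x : ℂ).re ∂μ = (∫ x, (fourier (q : ℤ) x : ℂ) ∂μ).re := by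
      have hi : Integrable (fun x : Tor => (fourier (q : ℤ) x : ℂ)) μ :=
        (fourier (q : ℤ)).continuous.integrable_of_hasCompactSupport
          (HasCompactSupport.of_compactSpace _)
      exact integral_re hi
    rw [h5, hμ, hq1]
    simp
  have h2' : (fun x : Tor => 1 - (fourier (q : ℤ) x : ℂ).re) =ᵐ[μ] 0 :=
    (integral_eq_zero_iff_of_nonneg h0 (hint _ hc)).1 h1
  refine ⟨q, hq, ?_⟩
  filter_upwards [h2'] with x hx
  have hx' : 1 - (fourier (q : ℤ) x : ℂ).re = 0 := hx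
  exact nsmul_eq_zero_of_re (by linarith)

theorem at_refl {μ : Measure Tor} (h : At μ) : At (Helper75.IP.refl μ) := by
  obtain ⟨Q, hQ, h⟩ := h
  refine ⟨Q, hQ, ?_⟩
  have hm : MeasurableSet {x : Tor | Q • x = 0} :=
    (isClosed_singleton.preimage (by fun_prop : Continuous fun x : Tor => Q • x)).measurableSet
  refine (ae_map_iff (p := fun x : Tor => Q • x = 0) (f := fun x : Tor => -x)
    measurable_neg.aemeasurable hm).2 ?_
  filter_upwards [h] with x hx
  show Q • (-x) = 0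
  rw [smul_neg, hx, neg_zero]

theorem domT {k : ℕ} {f : Fin k → GG s2 s3 t → ℂ} {μ : Fin k → Measure Tor}
    (hAt : ∀ i, FD (f i) → At (μ i)) {a b a' b' : Fin k → ℕ}
    (h : ∀ i, ¬ FD (f i) → a' i + b' i < a i + b i) : DomT (sy μ) (lst μ a b) (lst μ a' b') := by
  refine ⟨2, by norm_num, fun w hw hr ha => ?_⟩
  unfold sy
  rw [sum_lst, sum_lst, sum_lst, ← Finset.sum_sub_distrib, Finset.mul_sum]
  refine Finset.sum_le_sum fun i _ => ?_
  rw [hr _ (mem_sy μ i).1]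
  have h1 := hw _ (mem_sy μ i).1
  by_cases hi : FD (f i)
  · rw [ha _ (mem_sy μ i).1 (hAt i hi)]
    simp
  · have h2 : ((a' i : ℝ) + b' i) + 1 ≤ a i + b i := by exact_mod_cast h i hi
    push_cast
    nlinarith

/-- overlapping powers -/
theorem overlap (h2 : ∀ x : ℚ, s2 x = 2 * x) (h3 : ∀ x : ℚ, s3 x = 3 * x)
    (ht : ∀ x : ℚ, t x = x + 1) {τ : GG s2 s3 t} (hτ : (τ : Equiv.Perm ℚ) = t) {k : ℕ}
    {f : Fin k → GG s2 s3 t → ℂ} (hf : ∀ i, f i ∈ Set.extremePoints ℝ (TR (GG s2 s3 t)))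
    {μ : Fin k → Measure Tor} (hp : ∀ i, IsProbabilityMeasure (μ i))
    (hμ : ∀ i, ∀ n : ℤ, ∫ x, (fourier n x : ℂ) ∂(μ i) = f i (τ ^ n))
    (h : (∃ i, f i = Set.indicator ({1} : Set (GG s2 s3 t)) (fun _ => (1 : ℂ))) ∨
      ∀ i, FD (f i)) :
    ∃ m n : ℕ, m < n ∧ ¬ Measure.MutuallySingular
      (cp (mm μ (fun _ => 1) (fun _ => 0)) n) (cp (mm μ (fun _ => 1) (fun _ => 0)) m) := by
  set α := mm μ (fun _ => 1) (fun _ => 0) with hα
  have hαp : IsProbabilityMeasure α := mm_prob hp _ _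
  rcases h with ⟨i, hi⟩ | hfd
  · have hv : μ i = volume := (eq_reg_iff h2 h3 ht hτ (hf i).1 (hμ i)).1 hi
    have hαv : α = volume := by
      refine eq_volume fun n hn => ?_
      rw [hα, ft_mm hp]
      refine Finset.prod_eq_zero (Finset.mem_univ i) ?_
      rw [hv, Helper17.TranslM.integral_fourier_vol hn]
      simp
    refine ⟨1, 2, one_lt_two, fun hs => ?_⟩
    have e : cp α 2 = cp α 1 := by
      show conv α (cp α 1) = cp α 1
      rw [Helper35.IP.cp_one, hαv]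
      exact conv_volume volume
    rw [e, Measure.MutuallySingular.self_iff] at hs
    exact (IsProbabilityMeasure.ne_zero (cp α 1)) hs
  · choose w q hq hqw hw using fun i => by
      have := hp i
      exact torsion_atom h2 h3 ht hτ (hf i) (hμ i) (hfd i)
    set Q := ∏ i, q i with hQ
    have hQ1 : 1 ≤ Q := Finset.one_le_prod' fun i _ => hq i
    have hat : ∀ i, Q • w i = 0 := by
      intro i
      obtain ⟨c, hc⟩ := Finset.dvd_prod_of_mem q (Finset.mem_univ i)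
      rw [hQ, hc, mul_comm, mul_smul, hqw, smul_zero]
    obtain ⟨v, hv, hv'⟩ := cpl_atom (Q := Q) (lst_prob hp (fun _ => 1) (fun _ => 0)) (by
      intro ν hν
      unfold lst at hν
      simp only [List.replicate_zero, List.append_nil, List.mem_flatten, List.mem_ofFn] at hν
      obtain ⟨l, ⟨i, rfl⟩, hν⟩ := hν
      rw [List.eq_of_mem_replicate hν]
      exact ⟨w i, hat i, hw i⟩)
    refine ⟨Q, 2 * Q, by omega, ?_⟩
    rintro ⟨s, hs, ha, hb⟩
    have e1 := cp_atom (μ := α) hv' Q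
    have e2 := cp_atom (μ := α) hv' (2 * Q)
    rw [hv] at e1
    rw [mul_smul, hv, smul_zero] at e2
    by_cases h0 : (0 : Tor) ∈ s
    · refine e2.ne' (le_antisymm ?_ bot_le)
      rw [← ha]
      exact measure_mono (Set.singleton_subset_iff.2 h0)
    · refine e1.ne' (le_antisymm ?_ bot_le)
      rw [← hb]
      exact measure_mono (Set.singleton_subset_iff.2 h0)

/-- the Wiener-Pitt item for the product of all traces -/
theorem wp_strong (h2 : ∀ x : ℚ, s2 x = 2 * x) (h3 : ∀ x : ℚ, s3 x = 3 * x)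
    (ht : ∀ x : ℚ, t x = x + 1) {τ : GG s2 s3 t} (hτ : (τ : Equiv.Perm ℚ) = t) {k : ℕ}
    {f : Fin k → GG s2 s3 t → ℂ} (hf : ∀ i, f i ∈ Set.extremePoints ℝ (TR (GG s2 s3 t)))
    {μ : Fin k → Measure Tor} (hp : ∀ i, IsProbabilityMeasure (μ i))
    (hμ : ∀ i, ∀ n : ℤ, ∫ x, (fourier n x : ℂ) ∂(μ i) = f i (τ ^ n))
    (hmi : ∀ a b : Fin k → ℕ, Inv (mm μ a b))
    (hcf : ∀ (a b : Fin k → ℕ) (n : ℤ), ∫ x, (fourier n x : ℂ) ∂(mm μ a b) = mono f a b (τ ^ n))
    (h : (∃ i, f i = Set.indicator ({1} : Set (GG s2 s3 t)) (fun _ => (1 : ℂ))) ∨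
      ∀ i, FD (f i)) :
    ∃ (r : ℕ) (c : ℕ → ℂ) (B : ℝ), B < ∑ n ∈ range r, ‖c n‖ ∧
      NLe τ (∑ n ∈ range r, c n • mono f (fun _ => 1) (fun _ => 0) ^ n) B := by
  obtain ⟨m, n, hmn, hs⟩ := overlap h2 h3 ht hτ hf hp hμ h
  set a : Fin k → ℕ := fun _ => 1 with ha
  set b : Fin k → ℕ := fun _ => 0 with hb
  have := mm_prob hp a b
  have hi : ∀ j, Inv (cp (mm μ a b) j) := fun j => by
    rw [cp_mm hp]
    exact hmi _ _
  obtain ⟨ρ, c, hρp, hρ, hc, h1, h2'⟩ := Helper16.IP.common (hi n) (hi m) hs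
  obtain ⟨δ, hδ, H⟩ := Helper39.IP.norm_of_common hc h1 h2'
  refine ⟨n + 1,
    fun l => if l = n then 1 else if l = m then -1 else 0, 2 - δ, ?_, ?_⟩
  · have hsum : ∑ l ∈ range (n + 1), ‖(if l = n then (1 : ℂ) else if l = m then -1 else 0)‖ =
        2 := by
      rw [Finset.sum_range_succ, if_pos rfl, Finset.sum_eq_single m]
      · rw [if_neg hmn.ne, if_pos rfl]
        norm_num
      · intro l hl hlm
        rw [if_neg (Finset.mem_range.1 hl).ne, if_neg hlm]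
        simp
      · intro hm
        exact absurd (Finset.mem_range.2 hmn) hm
    rw [hsum]
    linarith
  · intro s d hd
    have h5 := H s d hd
    have h6 : ∀ j : ℤ, (∑ l ∈ range (n + 1),
        (if l = n then (1 : ℂ) else if l = m then -1 else 0) • mono f a b ^ l) (τ ^ j) =
        ∫ x, (fourier j x : ℂ) ∂(cp (mm μ a b) n) - ∫ x, (fourier j x : ℂ) ∂(cp (mm μ a b) m) := by
      intro j
      rw [Finset.sum_apply, Finset.sum_range_succ, if_pos rfl, Finset.sum_eq_single m]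
      · rw [if_neg hmn.ne, if_pos rfl, ft_cp, ft_cp, hcf]
        simp only [Pi.smul_apply, Pi.pow_apply, smul_eq_mul, neg_mul, one_mul]
        ring
      · intro l hl hlm
        rw [if_neg (Finset.mem_range.1 hl).ne, if_neg hlm]
        simp
      · intro hm
        exact absurd (Finset.mem_range.2 hmn) hm
    have h7 : ∑ j ∈ s, d j * (∑ l ∈ range (n + 1),
        (if l = n then (1 : ℂ) else if l = m then -1 else 0) • mono f a b ^ l) (τ ^ j) =
        ∑ j ∈ s, d j * ∫ x, (fourier j x : ℂ) ∂(cp (mm μ a b) n) -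
          ∑ j ∈ s, d j * ∫ x, (fourier j x : ℂ) ∂(cp (mm μ a b) m) := by
      rw [← Finset.sum_sub_distrib]
      refine Finset.sum_congr rfl fun j _ => ?_
      rw [h6]
      ring
    rw [h7]
    exact h5

/-- **Monomials of extreme traces.** -/
theorem monomials (h2 : ∀ x : ℚ, s2 x = 2 * x) (h3 : ∀ x : ℚ, s3 x = 3 * x)
    (ht : ∀ x : ℚ, t x = x + 1) {τ : GG s2 s3 t} (hτ : (τ : Equiv.Perm ℚ) = t) {k : ℕ}
    {f : Fin k → GG s2 s3 t → ℂ} (hf : ∀ i, f i ∈ Set.extremePoints ℝ (TR (GG s2 s3 t)))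
    {μ : Fin k → Measure Tor} (hp : ∀ i, IsProbabilityMeasure (μ i))
    (hμ : ∀ i, ∀ n : ℤ, ∫ x, (fourier n x : ℂ) ∂(μ i) = f i (τ ^ n)) :
    List.TFAE [
      (∃ i, f i = Set.indicator ({1} : Set (GG s2 s3 t)) (fun _ => (1 : ℂ))) ∨
        ∀ i, FD (f i),
      ∃ m n : ℕ, m < n ∧
        ¬ Measure.MutuallySingular (mm μ (fun _ => m) (fun _ => 0)) (mm μ (fun _ => n) (fun _ => 0)),
      ∃ (a b a' b' : Fin k → ℕ) (u : Tor),
        ((∀ i, ¬ FD (f i) → a' i + b' i < a i + b i) ∨ addOrderOf u = 0) ∧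
        ¬ Measure.MutuallySingular ((mm μ a b).map fun x => x + u) (mm μ a' b'),
      ∃ a b a' b' : Fin k → ℕ, (∀ i, ¬ FD (f i) → a' i + b' i < a i + b i) ∧
        ∃ g ∈ TR (GG s2 s3 t), ∃ g' ∈ TR (GG s2 s3 t), ∃ g'' ∈ TR (GG s2 s3 t), ∃ x y : ℝ,
          0 < x ∧ x ≤ 1 ∧ 0 < y ∧ y ≤ 1 ∧
          Set.indicator {x : GG s2 s3 t | ∃ r : ℚ, ∀ y : ℚ, (x : Equiv.Perm ℚ) y = y + r}
            (mono f a b) = x • g + (1 - x) • g' ∧
          Set.indicator {x : GG s2 s3 t | ∃ r : ℚ, ∀ y : ℚ, (x : Equiv.Perm ℚ) y = y + r}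
            (mono f a' b') = y • g + (1 - y) • g'',
      ∃ a b : Fin k → ℕ, (∀ i, ¬ FD (f i) → 0 < a i + b i) ∧ ∃ (r : ℕ) (c : ℕ → ℂ) (B : ℝ),
        B < ∑ n ∈ range r, ‖c n‖ ∧ NLe τ (∑ n ∈ range r, c n • mono f a b ^ n) B,
      ∃ (r : ℕ) (c : ℕ → ℂ) (B : ℝ), B < ∑ n ∈ range r, ‖c n‖ ∧
        NLe τ (∑ n ∈ range r, c n • mono f (fun _ => 1) (fun _ => 0) ^ n) B] := by
  have hg : ∀ i, Good (μ i) := fun i => by
    have := hp i
    exact ⟨hp i, inv_of_trace h2 h3 ht hτ (hf i).1 (hμ i), fun μ' c hp' hi' hc hle =>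
      Helper25.CG.ext_of_extreme h2 h3 ht hτ (hf i) (hμ i) μ' c hp' hi' hc hle⟩
  have hgL : ∀ a b : Fin k → ℕ, ∀ ν ∈ lst μ a b, Good ν := by
    intro a b ν hν
    obtain ⟨i, rfl | rfl⟩ := mem_lst hν
    · exact hg i
    · exact Helper75.IP.F.good_refl (hg i)
  have hmi : ∀ a b : Fin k → ℕ, Inv (mm μ a b) := fun a b => cpl_inv (hgL a b)
  have hmp : ∀ a b : Fin k → ℕ, IsProbabilityMeasure (mm μ a b) := fun a b => mm_prob hp a b
  have hcf : ∀ (a b : Fin k → ℕ) (n : ℤ), ∫ x, (fourier n x : ℂ) ∂(mm μ a b) =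
      mono f a b (τ ^ n) := by
    intro a b n
    rw [ft_mm hp, mono_apply]
    simp only [hμ]
  -- the situation when the first item fails
  have hcon : ¬ ((∃ i, f i = Set.indicator ({1} : Set (GG s2 s3 t)) (fun _ => (1 : ℂ))) ∨
        ∀ i, FD (f i)) →
      (∀ ν ∈ sy μ, ν ≠ volume) ∧ ∃ ν ∈ sy μ, ∀ x, ν {x} = 0 := by
    intro hcon
    push Not at hcon
    obtain ⟨hreg, i0, hi0⟩ := hcon
    have hne : ∀ i, μ i ≠ volume := fun i hv => by
      have := hp i
      exact hreg i ((eq_reg_iff h2 h3 ht hτ (hf i).1 (hμ i)).2 hv)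
    constructor
    · intro ν hν
      obtain ⟨i, rfl | rfl⟩ := mem_lst hν
      · exact hne i
      · intro hv
        apply hne i
        have := hp i
        refine eq_volume fun n hn => ?_
        have h5 := ft_refl (μ i) n
        rw [hv, Helper17.TranslM.integral_fourier_vol hn] at h5
        exact (star_eq_zero.1 h5.symm)
    · have := hp i0
      exact ⟨μ i0, (mem_sy μ i0).1, fun x =>
        Pool.Agent.Helper40.LPA.no_atoms_of_infinite h2 h3 ht hτ (hf i0) (hμ i0) hi0 x⟩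
  have hS : ∀ ν ∈ sy μ, Good ν := hgL _ _
  have hAt : ∀ i, FD (f i) → At (μ i) := fun i hi => by
    have := hp i
    exact at_of_fd h2 h3 ht hτ (hf i) (hμ i) hi
  tfae_have 1 → 2 := by
    intro h
    obtain ⟨m, n, hmn, hs⟩ := overlap h2 h3 ht hτ hf hp hμ h
    rw [cp_mm hp, cp_mm hp] at hs
    simp only [mul_one, mul_zero] at hs
    exact ⟨m, n, hmn, fun h' => hs h'.symm⟩
  have h2w : (∃ m n : ℕ, m < n ∧ ¬ Measure.MutuallySingular (mm μ (fun _ => m) (fun _ => 0))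
      (mm μ (fun _ => n) (fun _ => 0))) →
      ∃ a b a' b' : Fin k → ℕ, (∀ i, ¬ FD (f i) → a' i + b' i < a i + b i) ∧
        ¬ Measure.MutuallySingular (mm μ a b) (mm μ a' b') := by
    rintro ⟨m, n, hmn, h⟩
    exact ⟨fun _ => n, fun _ => 0, fun _ => m, fun _ => 0, fun i _ => by omega,
      fun h' => h h'.symm⟩
  have hw3 : (∃ a b a' b' : Fin k → ℕ, (∀ i, ¬ FD (f i) → a' i + b' i < a i + b i) ∧
        ¬ Measure.MutuallySingular (mm μ a b) (mm μ a' b')) →
      ∃ (a b a' b' : Fin k → ℕ) (u : Tor),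
        ((∀ i, ¬ FD (f i) → a' i + b' i < a i + b i) ∨ addOrderOf u = 0) ∧
        ¬ Measure.MutuallySingular ((mm μ a b).map fun x => x + u) (mm μ a' b') := by
    rintro ⟨a, b, a', b', hd, h⟩
    refine ⟨a, b, a', b', 0, Or.inl hd, ?_⟩
    simpa using h
  tfae_have 2 → 3 := fun h => hw3 (h2w h)
  tfae_have 3 → 1 := by
    rintro ⟨a, b, a', b', u, hd, h⟩
    by_contra hc
    obtain ⟨hne, hat⟩ := hcon hc
    apply h
    rcases hd with hd | hu
    · exact Helper75.IP.G.indepT_translate hS (sy_symm hp) hne hat (lst_sub μ a b) (lst_sub μ a' b')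
        (domT hAt hd) u
    · exact Helper75.IP.G.irrational_translate (hgL a b) (hgL a' b') (fun ν hν => hne ν (lst_sub μ a b ν hν))
        (addOrderOf_eq_zero_iff'.1 hu)
  tfae_have 2 → 4 := by
    intro h
    obtain ⟨a, b, a', b', hd, h⟩ := h2w h
    have := hmp a b
    have := hmp a' b'
    obtain ⟨ρ, c, hρp, hρ, hc, h1, h2'⟩ := Helper16.IP.common (hmi a b) (hmi a' b') h
    obtain ⟨g, hg, hg0, hgρ⟩ := exists_trace h2 h3 ht hτ hρ
    obtain ⟨g', hg', x, hx0, hx1, e1⟩ := component' h2 h3 ht hτ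
      (mono_conj (fun i => (hf i).1.2.1) a b) (hcf a b) (hmi a b) hρ hc h1 hg hg0 hgρ
    obtain ⟨g'', hg'', y, hy0, hy1, e2⟩ := component' h2 h3 ht hτ
      (mono_conj (fun i => (hf i).1.2.1) a' b') (hcf a' b') (hmi a' b') hρ hc h2' hg hg0 hgρ
    exact ⟨a, b, a', b', hd, g, hg, g', hg', g'', hg'', x, y, hx0, hx1, hy0, hy1, e1, e2⟩
  tfae_have 4 → 3 := by
    rintro ⟨a, b, a', b', hd, g, hg, g', hg', g'', hg'', x, y, hx0, hx1, hy0, hy1, e1, e2⟩
    have := hmp a b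
    have := hmp a' b'
    obtain ⟨lam, hlp, hl, -⟩ := exists_measure h2 h3 ht hτ hg
    exact hw3 ⟨a, b, a', b', hd, not_singular_of_common
      (le_of_component' ht hτ (hcf a b) hg' hx0 hx1 e1 hl)
      (le_of_component' ht hτ (hcf a' b') hg'' hy0 hy1 e2 hl)⟩
  tfae_have 1 → 6 := wp_strong h2 h3 ht hτ hf hp hμ hmi hcf
  tfae_have 6 → 5 := fun h => ⟨_, _, fun i _ => by simp, h⟩
  tfae_have 5 → 1 := by
    rintro ⟨a, b, hab, r, c, B, hB, hN⟩
    by_contra hc
    obtain ⟨hne, hat⟩ := hcon hc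
    have := hmp a b
    obtain ⟨s, d, hd, H⟩ := Helper39.IP.poly_of_singular (r := r) (α := fun n => cp (mm μ a b) n)
      (fun n => inferInstance) (fun m n hmn _ => by
        rw [cp_mm hp, cp_mm hp]
        exact Helper75.IP.G.indepT hS (sy_symm hp) hne hat (lst_sub μ _ _) (lst_sub μ _ _)
          (domT hAt fun i hi => by
          rw [← mul_add, ← mul_add]
          exact Nat.mul_lt_mul_of_pos_right hmn (hab i hi))) c (sub_pos.2 hB)
    have h5 := hN s d hd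
    have h6 : ∑ j ∈ s, d j * (∑ n ∈ range r, c n • mono f a b ^ n) (τ ^ j) =
        ∑ n ∈ range r, c n * ∑ j ∈ s, d j * ∫ x, (fourier j x : ℂ) ∂(cp (mm μ a b) n) := by
      simp only [Finset.sum_apply, Finset.mul_sum]
      rw [Finset.sum_comm]
      refine Finset.sum_congr rfl fun n _ => Finset.sum_congr rfl fun j _ => ?_
      rw [ft_cp, hcf, Pi.smul_apply, Pi.pow_apply, smul_eq_mul]
      ring
    rw [h6] at h5
    linarith
  tfae_finish

end Helper35.IP
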