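import Mathlib
import Pool.Agent.Helper35.IP.MonoMain

/-!
# Powers of extreme traces

`G` is the group generated by `x ↦ 2x`, `x ↦ 3x`, `x ↦ x + 1`, `τ` is the translation by one.
-/

set_option autoImplicit false
open scoped ComplexOrder InnerProductSpace Topology ComplexConjugate
open Filter MeasureTheory Finset Helper17.FU Helper17.FUGroup Helper91.TTT

namespace Helper35.IP.One

/-- normalised positive definite class functions -/
def traces (G : Subgroup (Equiv.Perm ℚ)) : Set (G → ℂ) :=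
  {ψ : G → ℂ | ψ 1 = 1 ∧ (∀ g h : G, ψ (h * g * h⁻¹) = ψ g) ∧
    ∀ (s : Finset G) (c : G → ℂ), 0 ≤ ∑ i ∈ s, ∑ j ∈ s, star (c j) * c i * ψ (j⁻¹ * i)}

/-- the regular trace -/
noncomputable def reg (G : Subgroup (Equiv.Perm ℚ)) : G → ℂ :=
  Set.indicator ({1} : Set G) (fun _ => (1 : ℂ))

/-- the span of the translates of `φ` by the translations in `G`; its dimension is the conditional
dimension of `φ` -/
def condSpan (G : Subgroup (Equiv.Perm ℚ)) (φ : G → ℂ) : Submodule ℂ (G → ℂ) :=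
  Submodule.span ℂ {F : G → ℂ | ∃ n : G,
    (∃ r : ℚ, ∀ x : ℚ, (n : Equiv.Perm ℚ) x = x + r) ∧ F = fun x => φ (n * x)}

/-- `μ` is the probability measure on the circle with Fourier coefficients `φ (τ ^ m)` -/
def IsMeasureOf {G : Subgroup (Equiv.Perm ℚ)} (τ : G) (φ : G → ℂ)
    (μ : Measure (AddCircle (1 : ℝ))) : Prop :=
  IsProbabilityMeasure μ ∧ ∀ m : ℤ, ∫ x, (fourier m x : ℂ) ∂μ = φ (τ ^ m)

/-- the functional on the C*-algebra generated by `τ` (that is, on the continuous functions on the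
circle) with the values `F (τ ^ m)` has norm at most `B` -/
def NormLE {G : Subgroup (Equiv.Perm ℚ)} (τ : G) (F : G → ℂ) (B : ℝ) : Prop :=
  ∀ (s : Finset ℤ) (d : ℤ → ℂ), (∀ x : AddCircle (1 : ℝ), ‖∑ m ∈ s, d m * fourier m x‖ ≤ 1) →
    ‖∑ m ∈ s, d m * F (τ ^ m)‖ ≤ B

/-- **Powers of extreme traces.**  An extreme trace `f` is not regular and conditionally infinite
dimensional if and only if the measures of its powers `1, f, f ^ 2, …` are pairwise mutually
singular, if and only if every translate of the measure of `f ^ a * star f ^ b` is singular to the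
measure of `f ^ c * star f ^ d` whenever `a + b ≠ c + d`, and also for all `a, b, c, d` if the
translation is irrational, if and only if the powers of `f` span `ℓ¹` isometrically in the dual of
the C*-algebra generated by `τ`. -/
theorem result :
  ∀ (s2 s3 t : Equiv.Perm ℚ), (∀ x : ℚ, s2 x = 2 * x) → (∀ x : ℚ, s3 x = 3 * x) →
  (∀ x : ℚ, t x = x + 1) →
  ∀ (G : Subgroup (Equiv.Perm ℚ)), G = Subgroup.closure {s2, s3, t} →
  ∀ τ : G, (τ : Equiv.Perm ℚ) = t →
  ∀ f ∈ Set.extremePoints ℝ (traces G), ∃ m : ℕ → ℕ → Measure (AddCircle (1 : ℝ)),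
    (∀ a b, IsMeasureOf τ (f ^ a * star f ^ b) (m a b)) ∧
    List.TFAE [
      f ≠ reg G ∧ ¬ FiniteDimensional ℂ (condSpan G f),
      ∀ a c, a ≠ c → m a 0 ⟂ₘ m c 0,
      ∀ a b c d, ∀ u : AddCircle (1 : ℝ), (a + b ≠ c + d ∨ addOrderOf u = 0) →
        (m a b).map (fun x => x + u) ⟂ₘ m c d,
      ∀ (r : ℕ) (c : ℕ → ℂ),
        IsLeast {B : ℝ | NormLE τ (∑ n ∈ range r, c n • f ^ n) B} (∑ n ∈ range r, ‖c n‖)] := by
  intro s2 s3 t h2 h3 ht G hG τ hτ
  subst hG
  intro f hf
  have hf' : ∀ _ : Fin 1, f ∈ Set.extremePoints ℝ (TR (GG s2 s3 t)) := fun _ => hf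
  obtain ⟨μ, hμp, hμ, -⟩ := Helper35.AG.exists_measure h2 h3 ht hτ (hf' 0).1
  have hmono : ∀ a b : Fin 1 → ℕ,
      Helper35.IP.mono (fun _ : Fin 1 => f) a b = f ^ a 0 * star f ^ b 0 := by
    intro a b
    unfold Helper35.IP.mono
    rw [Fin.prod_univ_one]
  have hM : ∀ a b : ℕ, IsMeasureOf τ (f ^ a * star f ^ b)
      (Helper35.IP.mm (fun _ : Fin 1 => μ) (fun _ => a) (fun _ => b)) := by
    intro a b
    refine ⟨Helper35.IP.mm_prob (fun _ => hμp) _ _, fun n => ?_⟩
    rw [Helper35.IP.ft_mm (fun _ => hμp), Fin.prod_univ_one]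
    simp only [hμ]
    rfl
  refine ⟨fun a b => Helper35.IP.mm (fun _ : Fin 1 => μ) (fun _ => a) (fun _ => b), hM, ?_⟩
  have h := Helper35.IP.monomials h2 h3 ht hτ hf' (fun _ => hμp) (fun _ => hμ)
  have e1 : ∀ a : Fin 1 → ℕ, a = fun _ => a 0 := fun a => funext fun i => by
    rw [Subsingleton.elim i 0]
  have hFD : ((∃ _ : Fin 1, f = Set.indicator ({1} : Set (GG s2 s3 t)) (fun _ => (1 : ℂ))) ∨
      ∀ _ : Fin 1, Helper35.IP.FD f) ↔ ¬ (f ≠ reg (GG s2 s3 t) ∧
        ¬ FiniteDimensional ℂ (condSpan (GG s2 s3 t) f)) := by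
    rw [not_and_or, not_not, not_not]
    exact or_congr (by simp [reg]) (by simp [Helper35.IP.FD]; exact Iff.rfl)
  have hsm : ∀ (α β : Measure (AddCircle (1 : ℝ))) (u : AddCircle (1 : ℝ)),
      (α.map fun x => x + -u) ⟂ₘ β → (β.map fun x => x + u) ⟂ₘ α := by
    intro α β u hs
    obtain ⟨A, hA, h1, h2⟩ := hs
    have hmu : Measurable fun x : AddCircle (1 : ℝ) => x + u := measurable_add_const u
    have hmn : Measurable fun x : AddCircle (1 : ℝ) => x + -u := measurable_add_const (-u)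
    rw [Measure.map_apply hmn hA] at h1
    refine ⟨(fun x => x + -u) ⁻¹' Aᶜ, hmn hA.compl, ?_, ?_⟩
    · rw [Measure.map_apply hmu (hmn hA.compl)]
      have : (fun x : AddCircle (1 : ℝ) => x + u) ⁻¹' ((fun x => x + -u) ⁻¹' Aᶜ) = Aᶜ := by
        ext x
        simp
      rw [this]
      exact h2
    · rw [← Set.preimage_compl, compl_compl]
      exact h1
  have h0 : ∀ α : Measure (AddCircle (1 : ℝ)), (α.map fun x => x + 0) = α := fun α => by
    simp
  tfae_have 1 → 3 := by
    intro hc a b c d u hu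
    by_contra hn
    have h31 := (h.out 2 0).1
    rcases hu with hu | hu
    · rcases lt_or_gt_of_ne hu with hlt | hlt
      · refine hFD.1 (h31 ⟨fun _ => c, fun _ => d, fun _ => a, fun _ => b, -u,
          Or.inl fun _ _ => hlt, fun hs => hn ?_⟩) hc
        exact hsm _ _ _ hs
      · exact hFD.1 (h31 ⟨fun _ => a, fun _ => b, fun _ => c, fun _ => d, u,
          Or.inl fun _ _ => hlt, hn⟩) hc
    · exact hFD.1 (h31 ⟨fun _ => a, fun _ => b, fun _ => c, fun _ => d, u, Or.inr hu, hn⟩) hc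
  tfae_have 3 → 2 := by
    intro h3 a c hac
    have := h3 a 0 c 0 0 (Or.inl (by simpa using hac))
    rwa [h0] at this
  tfae_have 2 → 1 := by
    intro h2'
    by_contra hc
    obtain ⟨i, j, hij, hn⟩ := (h.out 0 1).1 (hFD.2 hc)
    exact hn (h2' i j hij.ne)
  have hle : ∀ (r : ℕ) (c : ℕ → ℂ),
      NormLE τ (∑ n ∈ range r, c n • f ^ n) (∑ n ∈ range r, ‖c n‖) := by
    intro r c s d hd
    have e : ∑ m ∈ s, d m * (∑ n ∈ range r, c n • f ^ n) (τ ^ m) =
        ∑ n ∈ range r, c n * ∑ m ∈ s, d m * (f (τ ^ m)) ^ n := by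
      simp only [Finset.sum_apply, Pi.smul_apply, Pi.pow_apply, smul_eq_mul, Finset.mul_sum]
      rw [Finset.sum_comm]
      exact Finset.sum_congr rfl fun n _ => Finset.sum_congr rfl fun m _ => by ring
    rw [e]
    refine (norm_sum_le _ _).trans (Finset.sum_le_sum fun n _ => ?_)
    rw [norm_mul]
    refine mul_le_of_le_one_right (norm_nonneg _) ?_
    have hn := hM n 0
    obtain ⟨hpn, hcn⟩ := hn
    have e2 : ∑ m ∈ s, d m * (f (τ ^ m)) ^ n =
        ∫ x, ∑ m ∈ s, d m * (fourier m x : ℂ)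
          ∂(Helper35.IP.mm (fun _ : Fin 1 => μ) (fun _ => n) (fun _ => 0)) := by
      rw [integral_finsetSum]
      · refine Finset.sum_congr rfl fun m _ => ?_
        rw [integral_const_mul, hcn m]
        simp
      · intro m _
        exact ((fourier m).continuous.integrable_of_hasCompactSupport
          (HasCompactSupport.of_compactSpace _)).const_mul _
    rw [e2]
    refine (norm_integral_le_of_norm_le_const (C := 1) (Eventually.of_forall hd)).trans ?_
    simp
  tfae_have 4 → 1 := by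
    intro h4
    by_contra hc
    obtain ⟨r, c, B, hB, hN⟩ := (h.out 0 5).1 (hFD.2 hc)
    have hN' : NormLE τ (∑ n ∈ range r, c n • f ^ n) B := by
      have e : Helper35.IP.mono (fun _ : Fin 1 => f) (fun _ => 1) (fun _ => 0) = f := by
        rw [hmono]
        simp
      rw [e] at hN
      exact hN
    exact absurd ((h4 r c).2 hN') (not_le.2 hB)
  tfae_have 1 → 4 := by
    intro hc r c
    refine ⟨hle r c, fun B hB => ?_⟩
    by_contra hlt
    have h61 := (h.out 5 0).1
    refine hFD.1 (h61 ⟨r, c, B, not_le.1 hlt, ?_⟩) hc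
    have e : Helper35.IP.mono (fun _ : Fin 1 => f) (fun _ => 1) (fun _ => 0) = f := by
      rw [hmono]
      simp
    rw [e]
    exact hB
  tfae_finish

end Helper35.IP.One
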