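import Pool.Agent.Helper35.IP.One

/-!
# Powers of extreme traces, pointwise form
-/

set_option autoImplicit false
open scoped ComplexOrder Topology ComplexConjugate
open Filter MeasureTheory Finset

namespace Helper35.IP.One

def CondFiniteDim (G : Subgroup (Equiv.Perm ℚ)) (φ : G → ℂ) : Prop :=
  FiniteDimensional ℂ (Submodule.span ℂ {F : G → ℂ | ∃ n : G,
    (∃ r : ℚ, ∀ x : ℚ, (n : Equiv.Perm ℚ) x = x + r) ∧ F = fun x => φ (n * x)})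

theorem resultP :
  ∀ (s2 s3 t : Equiv.Perm ℚ), (∀ x : ℚ, s2 x = 2 * x) → (∀ x : ℚ, s3 x = 3 * x) →
  (∀ x : ℚ, t x = x + 1) →
  ∀ (G : Subgroup (Equiv.Perm ℚ)), G = Subgroup.closure {s2, s3, t} →
  ∀ τ : G, (τ : Equiv.Perm ℚ) = t →
  ∀ f ∈ Set.extremePoints ℝ (traces G), ∃ m : ℕ → ℕ → Measure (AddCircle (1 : ℝ)),
    (∀ a b, IsMeasureOf τ (fun x => f x ^ a * conj (f x) ^ b) (m a b)) ∧
    List.TFAE [
      f ≠ reg G ∧ ¬ CondFiniteDim G f,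
      ∀ a c, a ≠ c → m a 0 ⟂ₘ m c 0,
      ∀ a b c d, ∀ u : AddCircle (1 : ℝ), (a + b ≠ c + d ∨ addOrderOf u = 0) →
        (m a b).map (fun x => x + u) ⟂ₘ m c d,
      ∀ (r : ℕ) (c : ℕ → ℂ), IsLeast {B : ℝ | NormLE τ (fun x => ∑ n ∈ range r, c n * f x ^ n) B}
        (∑ n ∈ range r, ‖c n‖)] := by
  intro s2 s3 t h2 h3 ht G hG τ hτ f hf
  obtain ⟨m, hm, h⟩ := result s2 s3 t h2 h3 ht G hG τ hτ f hf
  refine ⟨m, hm, ?_⟩
  have e : ∀ (r : ℕ) (c : ℕ → ℂ),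
      (fun x => ∑ n ∈ range r, c n * f x ^ n) = ∑ n ∈ range r, c n • f ^ n := by
    intro r c
    funext x
    simp
  simp only [e]
  exact h

end Helper35.IP.One
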