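import Mathlib
import Pool.Agent.Helper35.IP.Trace
import Pool.Agent.Helper35.IP.Indep
import Pool.Agent.Helper88.IP.Trans

/-!
# Independent powers: the list for one extreme trace
-/

set_option autoImplicit false

open MeasureTheory Filter Topology Finset Helper17.FU Helper17.FUGroup Helper35.AG Helper75.IP
open Helper91.TTT (GG IsTr)
open scoped ENNReal ComplexConjugate ComplexOrder

namespace Helper35.IP

/-- all convolution powers, up to all translations -/
theorem indep_all {μ : Measure Tor} [IsProbabilityMeasure μ] (hμ : Inv μ) (hext : Ext μ)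
    (hat : ∀ x, μ {x} = 0) (hne : μ ≠ volume) {m n : ℕ} {u : Tor} (hmn : m ≤ n)
    (hu : m < n ∨ addOrderOf u = 0) :
    Measure.MutuallySingular ((cp μ n).map fun x => x + u) (cp μ m) := by
  have hI : Helper88.IP.Indep := fun μ hp hμ hext hat hne m n hm hmn =>
    indep hμ hext hat hne hm hmn
  rcases Nat.eq_zero_or_pos m with hm | hm
  · rw [hm]
    rcases Nat.eq_zero_or_pos n with hn | hn
    · have hu0 : u ≠ 0 := by
        rintro rfl
        rcases hu with h | h
        · omega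
        · simp at h
      refine ⟨{0}, measurableSet_singleton _, ?_, ?_⟩
      · rw [hn]
        show (Measure.dirac (0 : Tor)).map (fun x => x + u) {0} = 0
        rw [Measure.map_apply (measurable_add_const u) (measurableSet_singleton _),
          Measure.dirac_apply' _ (measurable_add_const u (measurableSet_singleton _))]
        simp [hu0]
      · show Measure.dirac (0 : Tor) {0}ᶜ = 0
        rw [Measure.dirac_apply' _ (measurableSet_singleton _).compl]
        simp
    · refine ⟨{0}, measurableSet_singleton _, ?_, ?_⟩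
      · rw [Measure.map_apply (measurable_add_const u) (measurableSet_singleton _)]
        have e : (fun x : Tor => x + u) ⁻¹' {0} = {-u} := by
          ext x
          simp only [Set.mem_preimage, Set.mem_singleton_iff]
          exact eq_neg_iff_add_eq_zero.symm
        rw [e]
        exact cp_no_atom hat hn _
      · show Measure.dirac (0 : Tor) {0}ᶜ = 0
        rw [Measure.dirac_apply' _ (measurableSet_singleton _).compl]
        simp
  · rcases hmn.lt_or_eq with h | h
    · exact Helper88.IP.indep_translate_of hI hμ hext hat hne hm h u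
    · have hu' : addOrderOf u = 0 := hu.resolve_left (by omega)
      have hMI : Helper17.FurstPQ.MI 2 3 := by
        refine ⟨le_rfl, by norm_num, ?_⟩
        exact_mod_cast Helper17.Furst.log_irr
      have hi := Helper88.IP.inv_cp hμ n
      exact (Helper17.TranslM.main hMI (Helper88.IP.sing_vol hI hμ hext hat hne (hm.trans_le hmn))
        hi.two hi.three le_rfl).1 u (addOrderOf_eq_zero_iff'.1 hu') (cp μ m) inferInstance
        (Helper88.IP.inv_cp hμ m).two

variable {s2 s3 t : Equiv.Perm ℚ}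

/-- **Independent powers of the measure of an extreme trace.** -/
theorem powers (h2 : ∀ x : ℚ, s2 x = 2 * x) (h3 : ∀ x : ℚ, s3 x = 3 * x)
    (ht : ∀ x : ℚ, t x = x + 1) {τ : GG s2 s3 t} (hτ : (τ : Equiv.Perm ℚ) = t)
    {φ : GG s2 s3 t → ℂ} (hφ : φ ∈ Set.extremePoints ℝ (TR (GG s2 s3 t)))
    {μ : Measure Tor} [IsProbabilityMeasure μ]
    (hμ : ∀ n : ℤ, ∫ x, (fourier n x : ℂ) ∂μ = φ (τ ^ n)) :
    List.TFAE [
      φ = Set.indicator ({1} : Set (GG s2 s3 t)) (fun _ => (1 : ℂ)) ∨
        FiniteDimensional ℂ (Submodule.span ℂ {F : GG s2 s3 t → ℂ | ∃ n : GG s2 s3 t,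
          IsTr n ∧ F = fun x => φ (n * x)}),
      ∃ m n : ℕ, m < n ∧ ¬ Measure.MutuallySingular (cp μ n) (cp μ m),
      ∃ m n : ℕ, ∃ u : Tor, m ≤ n ∧ (m < n ∨ addOrderOf u = 0) ∧
        ¬ Measure.MutuallySingular ((cp μ n).map fun x => x + u) (cp μ m),
      ∃ m n : ℕ, m < n ∧ ∃ g ∈ TR (GG s2 s3 t), ∃ g' ∈ TR (GG s2 s3 t),
        ∃ g'' ∈ TR (GG s2 s3 t), ∃ a b : ℝ, 0 < a ∧ a ≤ 1 ∧ 0 < b ∧ b ≤ 1 ∧
          pw φ n = a • g + (1 - a) • g' ∧ pw φ m = b • g + (1 - b) • g''] := by
  have hi : Inv μ := inv_of_trace h2 h3 ht hτ hφ.1 hμ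
  tfae_have 1 → 2 := by
    rintro (h0 | hfd)
    · have hv : μ = volume := (eq_reg_iff h2 h3 ht hτ hφ.1 hμ).1 h0
      refine ⟨1, 2, one_lt_two, fun hs => ?_⟩
      have e : cp μ 2 = cp μ 1 := by
        show conv μ (cp μ 1) = cp μ 1
        rw [cp_one, hv]
        exact conv_volume volume
      rw [e, Measure.MutuallySingular.self_iff] at hs
      exact (IsProbabilityMeasure.ne_zero (cp μ 1)) hs
    · obtain ⟨w, q, hq, hqw, hw⟩ := torsion_atom h2 h3 ht hτ hφ hμ hfd
      refine ⟨q, 2 * q, by omega, ?_⟩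
      rintro ⟨s, hs, ha, hb⟩
      have e1 := cp_atom hw q
      have e2 := cp_atom hw (2 * q)
      rw [hqw] at e1
      rw [mul_smul, hqw, smul_zero] at e2
      by_cases h0 : (0 : Tor) ∈ s
      · refine e2.ne' (le_antisymm ?_ bot_le)
        rw [← ha]
        exact measure_mono (Set.singleton_subset_iff.2 h0)
      · refine e1.ne' (le_antisymm ?_ bot_le)
        rw [← hb]
        exact measure_mono (Set.singleton_subset_iff.2 h0)
  tfae_have 2 → 3 := by
    rintro ⟨m, n, hmn, h⟩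
    refine ⟨m, n, 0, hmn.le, Or.inl hmn, ?_⟩
    simpa using h
  tfae_have 3 → 1 := by
    rintro ⟨m, n, u, hmn, hu, h⟩
    by_contra hcon
    push Not at hcon
    refine h (indep_all hi (fun μ' c hp hi' hc hle =>
      Helper25.CG.ext_of_extreme h2 h3 ht hτ hφ hμ μ' c hp hi' hc hle)
      (fun x => Pool.Agent.Helper40.LPA.no_atoms_of_infinite h2 h3 ht hτ hφ hμ hcon.2 x) ?_ hmn hu)
    intro hv
    exact hcon.1 ((eq_reg_iff h2 h3 ht hτ hφ.1 hμ).2 hv)
  tfae_have 2 → 4 := by
    rintro ⟨m, n, hmn, h⟩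
    have inv_cp := fun n => Helper26.IP.inv_cp hi n
    obtain ⟨ρ, c, hρp, hρ, hc, h1, h2'⟩ := Helper16.IP.common (inv_cp n) (inv_cp m) h
    obtain ⟨g, hg, hg0, hgρ⟩ := exists_trace h2 h3 ht hτ hρ
    obtain ⟨g', hg', a, ha0, ha1, e1⟩ := component h2 h3 ht hτ hφ.1 hμ (inv_cp n) hρ hc h1
      hg hg0 hgρ
    obtain ⟨g'', hg'', b, hb0, hb1, e2⟩ := component h2 h3 ht hτ hφ.1 hμ (inv_cp m) hρ hc h2'
      hg hg0 hgρ
    exact ⟨m, n, hmn, g, hg, g', hg', g'', hg'', a, b, ha0, ha1, hb0, hb1, e1, e2⟩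
  tfae_have 4 → 2 := by
    rintro ⟨m, n, hmn, g, hg, g', hg', g'', hg'', a, b, ha0, ha1, hb0, hb1, e1, e2⟩
    obtain ⟨lam, hlp, hl, -⟩ := exists_measure h2 h3 ht hτ hg
    exact ⟨m, n, hmn, not_singular_of_common (le_of_component ht hτ hμ hg' ha0 ha1 e1 hl)
      (le_of_component ht hτ hμ hg'' hb0 hb1 e2 hl)⟩
  tfae_finish

end Helper35.IP
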